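import Mathlib

open Equiv

namespace Pool.Agent.Results.MP_f6f917_al.NoCyclicBlock

variable {Ω : Type}

/-- `G ≤ FSym(Ω)`. -/
def IsFinitary (G : Subgroup (Perm Ω)) : Prop := ∀ g ∈ G, {x | g x ≠ x}.Finite

def IsTrans (G : Subgroup (Perm Ω)) : Prop := ∀ x y, ∃ g ∈ G, g x = y

/-- Every element has order a power of `p`. -/
def IsP (p : ℕ) (H : Subgroup (Perm Ω)) : Prop := ∀ h ∈ H, ∃ n, orderOf h = p ^ n

/-- `S` is a maximal `p`-subgroup of `G`. -/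
def IsSylow (p : ℕ) (S G : Subgroup (Perm Ω)) : Prop :=
  S ≤ G ∧ IsP p S ∧ ∀ S', S ≤ S' → S' ≤ G → IsP p S' → S' = S

def IsBlock (H : Subgroup (Perm Ω)) (B : Set Ω) : Prop :=
  B.Nonempty ∧ ∀ h ∈ H, h '' B = B ∨ h '' B ∩ B = ∅

def TotallyImprimitive (H : Subgroup (Perm Ω)) : Prop :=
  IsTrans H ∧ ∀ F : Set Ω, F.Finite → ∃ B, B.Finite ∧ IsBlock H B ∧ F ⊆ B

/-- The support of every cycle of every element of `H` is a block for `H`. -/
def CyclesAreBlocks (H : Subgroup (Perm Ω)) : Prop :=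
  ∀ h ∈ H, ∀ x, IsBlock H {y | h.SameCycle x y}

def e : Fin 32 → Fin 8 → Fin 8 :=
  ![![0, 1, 2, 3, 4, 5, 6, 7],
    ![0, 1, 2, 3, 5, 4, 7, 6],
    ![0, 1, 3, 2, 4, 5, 7, 6],
    ![0, 1, 3, 2, 5, 4, 6, 7],
    ![1, 0, 2, 3, 4, 5, 7, 6],
    ![1, 0, 2, 3, 5, 4, 6, 7],
    ![1, 0, 3, 2, 4, 5, 6, 7],
    ![1, 0, 3, 2, 5, 4, 7, 6],
    ![2, 3, 0, 1, 6, 7, 5, 4],
    ![2, 3, 0, 1, 7, 6, 4, 5],
    ![2, 3, 1, 0, 6, 7, 4, 5],
    ![2, 3, 1, 0, 7, 6, 5, 4],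
    ![3, 2, 0, 1, 6, 7, 4, 5],
    ![3, 2, 0, 1, 7, 6, 5, 4],
    ![3, 2, 1, 0, 6, 7, 5, 4],
    ![3, 2, 1, 0, 7, 6, 4, 5],
    ![4, 5, 6, 7, 0, 1, 2, 3],
    ![4, 5, 6, 7, 1, 0, 3, 2],
    ![4, 5, 7, 6, 0, 1, 3, 2],
    ![4, 5, 7, 6, 1, 0, 2, 3],
    ![5, 4, 6, 7, 0, 1, 3, 2],
    ![5, 4, 6, 7, 1, 0, 2, 3],
    ![5, 4, 7, 6, 0, 1, 2, 3],
    ![5, 4, 7, 6, 1, 0, 3, 2],
    ![6, 7, 4, 5, 2, 3, 1, 0],
    ![6, 7, 4, 5, 3, 2, 0, 1],
    ![6, 7, 5, 4, 2, 3, 0, 1],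
    ![6, 7, 5, 4, 3, 2, 1, 0],
    ![7, 6, 4, 5, 2, 3, 0, 1],
    ![7, 6, 4, 5, 3, 2, 1, 0],
    ![7, 6, 5, 4, 2, 3, 1, 0],
    ![7, 6, 5, 4, 3, 2, 0, 1]]

lemma e_one : ∀ a, e 0 a = a := by decide
lemma e_mul : ∀ k l, ∃ m, ∀ a, e k (e l a) = e m a := by decide +kernel
lemma e_inv : ∀ k, ∃ m, ∀ a, e k (e m a) = a := by decide +kernel
lemma e_inj : ∀ k, Function.Injective (e k) := by decide +kernel
lemma e_pow : ∀ k a, (e k)^[8] a = a := by decide +kernel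
lemma e_trans : ∀ a b, ∃ k, e k a = b := by decide +kernel
lemma e_key : ∀ m l, e m 0 = 2 → e l 0 = 4 → ∃ q q', e l q' = e m (e l q) ∧
    e m (e m (e l q)) = e l q ∧ ∃ j : Fin 4, e l ((e m)^[j] q) = e m (e l q) ∧
      e l ((e m)^[j] q') ≠ e l q ∧ e l ((e m)^[j] q') ≠ e m (e l q) := by decide +kernel

def R (k i j : ℕ) : Prop := ∀ b, k ≤ b → i.testBit b = j.testBit b

lemma R_zero {i j : ℕ} : R 0 i j ↔ i = j :=
  ⟨fun h => Nat.eq_of_testBit_eq fun b => h b (Nat.zero_le b), fun h _ _ => h ▸ rfl⟩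

def GG : Subgroup (Perm (Fin 8 × ℕ)) where
  carrier := {g | {x | g x ≠ x}.Finite ∧ (∀ k x y, R k x.2 y.2 ↔ R k (g x).2 (g y).2) ∧
    ∀ i, ∃ m, ∀ a, (g (a, i)).1 = e m a}
  one_mem' := ⟨by simp, fun _ _ _ => Iff.rfl, fun _ => ⟨0, fun a => (e_one a).symm⟩⟩
  mul_mem' := by
    rintro g h ⟨g1, g2, g3⟩ ⟨h1, h2, h3⟩
    refine ⟨(g1.union h1).subset fun x hx => ?_, fun k x y => (h2 k x y).trans (g2 k _ _),
      fun i => ?_⟩
    · by_contra hc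
      simp only [Set.mem_union, Set.mem_ofPred_eq, not_or, not_not] at hc
      exact hx (by rw [Perm.mul_apply, hc.2, hc.1])
    · obtain ⟨l, hl⟩ := h3 i
      obtain ⟨k, hk⟩ := g3 (h (0, i)).2
      obtain ⟨m, hm⟩ := e_mul k l
      refine ⟨m, fun a => ?_⟩
      have : h (a, i) = (e l a, (h (0, i)).2) :=
        Prod.ext (hl a) (R_zero.1 ((h2 0 (a, i) (0, i)).1 (R_zero.2 rfl)))
      rw [Perm.mul_apply, this, hk, hm]
  inv_mem' := by
    rintro g ⟨g1, g2, g3⟩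
    refine ⟨g1.subset fun x hx hx' => hx ?_, fun k x y => ?_, fun i => ?_⟩
    · rw [Perm.inv_eq_iff_eq, hx']
    · rw [g2 k (g⁻¹ x) (g⁻¹ y)]; simp
    · obtain ⟨k, hk⟩ := g3 (g⁻¹ (0, i)).2
      obtain ⟨m, hm⟩ := e_inv k
      refine ⟨m, fun a => ?_⟩
      have : g (e m a, (g⁻¹ (0, i)).2) = (a, i) := by
        refine Prod.ext (by rw [hk, hm]) ?_
        have := R_zero.1 ((g2 0 (e m a, (g⁻¹ (0, i)).2) (g⁻¹ (0, i))).1 (R_zero.2 rfl))
        simpa using this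
      rw [← this]; simp

lemma step (u : Perm (Fin 8 × ℕ)) (hu : u ∈ GG) (m : ℕ) (h : ∀ x, R (m + 1) x.2 (u x).2) :
    ∀ x, R m x.2 ((u ^ 2) x).2 := by
  intro x
  have h1 := h x
  have h2 := h (u x)
  have h3 := hu.2.1 m x (u x)
  have key : ∀ i j, R (m + 1) i j → (R m i j ↔ i.testBit m = j.testBit m) := by
    intro i j hij
    refine ⟨fun h => h m le_rfl, fun h b hb => ?_⟩
    rcases eq_or_lt_of_le hb with rfl | hb
    · exact h
    · exact hij b hb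
  rw [key _ _ h1, key _ _ h2] at h3
  rw [sq, Perm.mul_apply, key _ _ (fun b hb => (h1 b hb).trans (h2 b hb))]
  revert h3
  cases x.2.testBit m <;> cases (u x).2.testBit m <;> cases (u (u x)).2.testBit m <;> simp

lemma steps (m : ℕ) : ∀ u ∈ GG, (∀ x, R m x.2 (u x).2) → u ^ 2 ^ (m + 3) = 1 := by
  induction m with
  | zero =>
    intro u hu h
    refine Equiv.ext fun x => ?_
    obtain ⟨a, i⟩ := x
    obtain ⟨k, hk⟩ := hu.2.2 i
    have h1 : ∀ a, u (a, i) = (e k a, i) := fun a =>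
      Prod.ext (hk a) (R_zero.1 (h (a, i))).symm
    have h2 : ∀ n a, (u ^ n) (a, i) = ((e k)^[n] a, i) := by
      intro n
      induction n with
      | zero => simp
      | succ n ih => intro a; rw [pow_succ, Perm.mul_apply, h1, ih]; rfl
    rw [h2]
    exact Prod.ext (e_pow k a) rfl
  | succ m ih =>
    intro u hu h
    have := ih (u ^ 2) (GG.pow_mem hu 2) (step u hu m h)
    rwa [← pow_mul, ← pow_succ'] at this

lemma bound (F : Set (Fin 8 × ℕ)) (hF : F.Finite) : ∃ n, ∀ x ∈ F, x.2 < 2 ^ n := by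
  obtain ⟨n, hn⟩ := (hF.image Prod.snd).bddAbove
  exact ⟨n, fun x hx => lt_of_le_of_lt (hn ⟨x, hx, rfl⟩) Nat.lt_two_pow_self⟩

lemma R_small {n k i j : ℕ} (hi : i < 2 ^ n) (hj : j < 2 ^ n) (hk : n ≤ k) : R k i j := by
  intro b hb
  have : 2 ^ n ≤ 2 ^ b := Nat.pow_le_pow_right (by norm_num) (hk.trans hb)
  rw [Nat.testBit_lt_two_pow (by omega), Nat.testBit_lt_two_pow (by omega)]

lemma isP : IsP 2 GG := by
  intro g hg
  obtain ⟨n, hn⟩ := bound _ hg.1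
  have h := steps n g hg (fun x => by
    by_cases hx : g x = x
    · rw [hx]; exact fun _ _ => rfl
    · exact R_small (hn x hx) (hn (g x) (fun h => hx (g.injective h))) le_rfl)
  obtain ⟨k, -, hk⟩ := (Nat.dvd_prime_pow Nat.prime_two).1 (orderOf_dvd_of_pow_eq_one h)
  exact ⟨k, hk⟩

lemma R_mixed {n k i i' j : ℕ} (hi : i < 2 ^ n) (hi' : i' < 2 ^ n) (hj : ¬ j < 2 ^ n)
    (h : R k i j) : R k i' j := by
  by_cases hk : n ≤ k
  · exact fun b hb => (R_small hi' hi hk b hb).trans (h b hb)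
  · exfalso
    apply hj
    refine Nat.lt_pow_two_of_testBit _ fun b hb => ?_
    rw [← h b (by omega)]
    exact Nat.testBit_lt_two_pow (lt_of_lt_of_le hi (Nat.pow_le_pow_right (by norm_num) hb))

lemma isTrans : IsTrans GG := by
  rintro ⟨a, i⟩ ⟨b, j⟩
  obtain ⟨n, hn⟩ := bound {(a, i), (b, j)} (Set.toFinite _)
  have hi : i < 2 ^ n := hn (a, i) (by simp)
  have hj : j < 2 ^ n := hn (b, j) (by simp)
  have hc : i ^^^ j < 2 ^ n := Nat.xor_lt_two_pow hi hj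
  obtain ⟨k, hk⟩ := e_trans a b
  obtain ⟨m, hm⟩ := e_inv k
  have hx : ∀ l, l < 2 ^ n → l ^^^ (i ^^^ j) < 2 ^ n := fun l hl => Nat.xor_lt_two_pow hl hc
  let g : Perm (Fin 8 × ℕ) :=
    { toFun := fun x => if x.2 < 2 ^ n then (e k x.1, x.2 ^^^ (i ^^^ j)) else x
      invFun := fun x => if x.2 < 2 ^ n then (e m x.1, x.2 ^^^ (i ^^^ j)) else x
      left_inv := fun x => by
        by_cases h : x.2 < 2 ^ n
        · simp only [if_pos h, if_pos (hx _ h)]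
          exact Prod.ext (e_inj k (hm _)) (Nat.xor_xor_cancel_right _ _)
        · simp only [if_neg h]
      right_inv := fun x => by
        by_cases h : x.2 < 2 ^ n
        · simp only [if_pos h, if_pos (hx _ h)]
          exact Prod.ext (hm _) (Nat.xor_xor_cancel_right _ _)
        · simp only [if_neg h] }
  have hg : ∀ x, g x = if x.2 < 2 ^ n then (e k x.1, x.2 ^^^ (i ^^^ j)) else x := fun _ => rfl
  refine ⟨g, ⟨?_, fun l x y => ?_, fun l => ?_⟩, ?_⟩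
  · refine ((Set.finite_univ (α := Fin 8)).prod (Set.finite_lt_nat (2 ^ n))).subset
      fun x hx => ⟨trivial, ?_⟩
    by_contra h
    exact hx (by rw [hg]; exact if_neg h)
  · rw [hg, hg]
    have symm : ∀ s t, R l s t ↔ R l t s :=
      fun s t => ⟨fun h b hb => (h b hb).symm, fun h b hb => (h b hb).symm⟩
    split_ifs with h1 h2 h2
    · refine forall₂_congr fun b _ => ?_
      simp only [Nat.testBit_xor, Bool.xor_left_inj]
    · exact ⟨R_mixed h1 (hx _ h1) h2, R_mixed (hx _ h1) h1 h2⟩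
    · rw [symm, symm x.2]
      exact ⟨R_mixed h2 (hx _ h2) h1, R_mixed (hx _ h2) h2 h1⟩
    · rfl
  · by_cases h : l < 2 ^ n
    · exact ⟨k, fun a => by rw [hg, if_pos h]⟩
    · exact ⟨0, fun a => by rw [hg, if_neg h, e_one]⟩
  · rw [hg, if_pos hi, hk]
    simp

lemma totImp : TotallyImprimitive GG := by
  refine ⟨isTrans, fun F hF => ?_⟩
  obtain ⟨n, hn⟩ := bound F hF
  have hR : ∀ i, i < 2 ^ n ↔ R n i 0 := fun i =>
    ⟨fun h => R_small h (by positivity) le_rfl,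
      fun h => Nat.lt_pow_two_of_testBit _ fun b hb => by simpa using h b hb⟩
  refine ⟨{x | x.2 < 2 ^ n},
    ((Set.finite_univ (α := Fin 8)).prod (Set.finite_lt_nat (2 ^ n))).subset
      fun x hx => ⟨trivial, hx⟩, ⟨⟨(0, 0), by simp⟩, fun g hg => ?_⟩, hn⟩
  by_cases h : g '' {x | x.2 < 2 ^ n} ∩ {x | x.2 < 2 ^ n} = ∅
  · exact Or.inr h
  left
  obtain ⟨_, ⟨x, hx, rfl⟩, hx'⟩ := Set.nonempty_iff_ne_empty.2 h
  have key : ∀ y, y.2 < 2 ^ n ↔ (g y).2 < 2 ^ n := by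
    intro y
    have h1 := hg.2.1 n y x
    constructor
    · intro hy
      exact (hR _).2 fun b hb => (h1.1 (R_small hy hx le_rfl) b hb).trans ((hR _).1 hx' b hb)
    · intro hy
      exact (hR _).2 fun b hb => (h1.2 (R_small hy hx' le_rfl) b hb).trans ((hR _).1 hx b hb)
  ext y
  constructor
  · rintro ⟨z, hz, rfl⟩
    exact (key z).1 hz
  · intro hy
    exact ⟨g⁻¹ y, (key _).2 (by simpa using hy), by simp⟩

lemma no_block (H : Subgroup (Perm (Fin 8 × ℕ))) (hH : H ≤ GG) (ht : IsTrans H) :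
    ¬ CyclesAreBlocks H := by
  intro hc
  have loc : ∀ g ∈ H, ∀ b, g (0, 0) = (b, 0) → ∃ m, e m 0 = b ∧ ∀ a, g (a, 0) = (e m a, 0) := by
    intro g hg b hb
    obtain ⟨m, hm⟩ := (hH hg).2.2 0
    refine ⟨m, by rw [← hm, hb], fun a => Prod.ext (hm a) ?_⟩
    have := R_zero.1 (((hH hg).2.1 0 (a, 0) (0, 0)).1 (R_zero.2 rfl))
    rw [this, hb]
  obtain ⟨h, hh, h0⟩ := ht (0, 0) (2, 0)
  obtain ⟨g, hg, g0⟩ := ht (0, 0) (4, 0)
  obtain ⟨m, hm0, hm⟩ := loc h hh 2 h0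
  obtain ⟨l, hl0, hl⟩ := loc g hg 4 g0
  obtain ⟨q, q', k1, k2, j, k3, k4, k5⟩ := e_key m l hm0 hl0
  have hpow : ∀ n a, (h ^ n) (a, 0) = ((e m)^[n] a, 0) := by
    intro n
    induction n with
    | zero => simp
    | succ n ih => intro a; rw [pow_succ, Perm.mul_apply, hm, ih]; rfl
  have hu : ∀ a, (g * h ^ (j : ℕ) * g⁻¹) (e l a, 0) = (e l ((e m)^[j] a), 0) := by
    intro a
    have : g⁻¹ (e l a, 0) = (a, 0) := by rw [Perm.inv_eq_iff_eq, hl]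
    rw [Perm.mul_apply, Perm.mul_apply, this, hpow, hl]
  have hB : ∀ y, h.SameCycle (e l q, 0) y → y = (e l q, 0) ∨ y = (e m (e l q), 0) := by
    rintro y ⟨i, rfl⟩
    induction i using Int.induction_on with
    | zero => simp
    | succ i ih =>
      rw [add_comm, zpow_add, zpow_one, Perm.mul_apply]
      rcases ih with ih | ih <;> rw [ih, hm]
      · exact Or.inr rfl
      · exact Or.inl (by rw [k2])
    | pred i ih =>
      rw [sub_eq_neg_add, zpow_add, zpow_neg_one, Perm.mul_apply]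
      rcases ih with ih | ih <;> rw [ih]
      · right; rw [Perm.inv_eq_iff_eq, hm, k2]
      · left; rw [Perm.inv_eq_iff_eq, hm]
  have hq : h.SameCycle (e l q, 0) (e m (e l q), 0) := ⟨1, by rw [zpow_one, hm]⟩
  rcases (hc h hh (e l q, 0)).2 _ (H.mul_mem (H.mul_mem hg (H.pow_mem hh j)) (H.inv_mem hg))
    with h1 | h1
  · have : (g * h ^ (j : ℕ) * g⁻¹) (e m (e l q), 0) ∈ {y | h.SameCycle (e l q, 0) y} :=
      h1 ▸ ⟨_, hq, rfl⟩
    rw [← k1, hu] at this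
    rcases hB _ this with h2 | h2
    · exact k4 (congrArg Prod.fst h2)
    · exact k5 (congrArg Prod.fst h2)
  · refine Set.eq_empty_iff_forall_notMem.1 h1 (e m (e l q), 0) ⟨⟨_, Perm.SameCycle.rfl, ?_⟩, hq⟩
    rw [hu, k3]

theorem result : ∃ (Ω : Type) (_ : Infinite Ω) (G S : Subgroup (Perm Ω)),
    IsFinitary G ∧ IsTrans G ∧ IsSylow 2 S G ∧ TotallyImprimitive S ∧
    ∀ H ≤ S, IsTrans H → ¬ CyclesAreBlocks H :=
  ⟨Fin 8 × ℕ, inferInstance, GG, GG, fun _ hg => hg.1, isTrans,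
    ⟨le_rfl, isP, fun _ h1 h2 _ => le_antisymm h2 h1⟩, totImp, no_block⟩

end Pool.Agent.Results.MP_f6f917_al.NoCyclicBlock
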